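import Pool.Agent.Lib.H66J.B

/-!
# H66K, file A: exchange for the degree vectors of the 2-matchings without triangle
-/

set_option autoImplicit false
set_option linter.unusedSectionVars false

namespace H66K

open Finset H66J

variable {V : Type*} [DecidableEq V]

/-- `F` contains no triangle. -/
def TF (F : Finset (Sym2 V)) : Prop :=
  ∀ x y z : V, x ≠ y → y ≠ z → x ≠ z → s(x, y) ∈ F → s(y, z) ∈ F → s(x, z) ∉ F

theorem TF.mono {F F' : Finset (Sym2 V)} (h : F ⊆ F') (hF : TF F') : TF F :=
  fun x y z h1 h2 h3 h4 h5 h6 => hF x y z h1 h2 h3 (h h4) (h h5) (h h6)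

theorem uniq1 {M : Finset (Sym2 V)} {w a b : V} (h : dg M w ≤ 1) (ha : s(w, a) ∈ M)
    (hb : s(w, b) ∈ M) : a = b := by
  by_contra hab
  have h1 : ({s(w, a), s(w, b)} : Finset (Sym2 V)) ⊆ M.filter fun e => w ∈ e := by
    intro e he
    rcases mem_insert.1 he with rfl | he
    · exact mem_filter.2 ⟨ha, Sym2.mem_mk_left _ _⟩
    · rw [mem_singleton.1 he]
      exact mem_filter.2 ⟨hb, Sym2.mem_mk_left _ _⟩
  have h2 : s(w, a) ≠ s(w, b) := fun h => hab (Sym2.congr_right.1 h)
  have h3 := card_le_card h1
  rw [card_pair h2] at h3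
  unfold dg at h
  omega

theorem uniq2 {M : Finset (Sym2 V)} {w a b c : V} (h : dg M w ≤ 2) (ha : s(w, a) ∈ M)
    (hb : s(w, b) ∈ M) (hc : s(w, c) ∈ M) : a = b ∨ a = c ∨ b = c := by
  by_contra hab
  push Not at hab
  obtain ⟨h1, h2, h3⟩ := hab
  have h4 : ({s(w, a), s(w, b), s(w, c)} : Finset (Sym2 V)) ⊆ M.filter fun e => w ∈ e := by
    intro e he
    rcases mem_insert.1 he with rfl | he
    · exact mem_filter.2 ⟨ha, Sym2.mem_mk_left _ _⟩
    · rcases mem_insert.1 he with rfl | he
      · exact mem_filter.2 ⟨hb, Sym2.mem_mk_left _ _⟩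
      · rw [mem_singleton.1 he]
        exact mem_filter.2 ⟨hc, Sym2.mem_mk_left _ _⟩
  have h5 : s(w, a) ≠ s(w, b) := fun h => h1 (Sym2.congr_right.1 h)
  have h6 : s(w, a) ≠ s(w, c) := fun h => h2 (Sym2.congr_right.1 h)
  have h7 : s(w, b) ≠ s(w, c) := fun h => h3 (Sym2.congr_right.1 h)
  have h8 := card_le_card h4
  rw [card_eq_three.2 ⟨_, _, _, h5, h6, h7, rfl⟩] at h8
  unfold dg at h
  omega

theorem dg_pos {M : Finset (Sym2 V)} {w a : V} (ha : s(w, a) ∈ M) : 1 ≤ dg M w := by
  have h1 : 0 < (M.filter fun e => w ∈ e).card :=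
    card_pos.2 ⟨_, mem_filter.2 ⟨ha, Sym2.mem_mk_left _ _⟩⟩
  unfold dg
  omega

theorem exists_other {M : Finset (Sym2 V)} {w v : V} (h : 2 ≤ dg M w) :
    ∃ a, a ≠ v ∧ s(w, a) ∈ M := by
  by_contra hcon
  push Not at hcon
  have h1 : (M.filter fun e => w ∈ e) ⊆ {s(w, v)} := by
    intro e he
    obtain ⟨h2, h3⟩ := mem_filter.1 he
    obtain ⟨a, rfl⟩ := h3
    rw [mem_singleton]
    by_contra h4
    exact hcon a (fun h5 => h4 (by rw [h5])) h2
  have h2 := card_le_card h1
  rw [card_singleton] at h2
  unfold dg at h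
  omega

theorem sw {X : Finset (Sym2 V)} {a b : V} (h : s(a, b) ∈ X) : s(b, a) ∈ X := by
  rw [Sym2.eq_swap]
  exact h

/-- A new triangle uses the new edge. -/
theorem tf_insert {M : Finset (Sym2 V)} (hM : TF M) {w v : V}
    (h : ∀ z, z ≠ w → z ≠ v → s(w, z) ∈ M → s(v, z) ∈ M → False) (hwv : w ≠ v) :
    TF (insert s(w, v) M) := by
  intro x y z hxy hyz hxz h1 h2 h3
  have key : ∀ a b c : V, a ≠ b → b ≠ c → a ≠ c → s(a, b) = s(w, v) →
      s(b, c) ∈ insert s(w, v) M → s(a, c) ∈ insert s(w, v) M → False := by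
    intro a b c hab hbc hac he h4 h5
    rw [Sym2.eq_iff] at he
    rcases he with ⟨rfl, rfl⟩ | ⟨rfl, rfl⟩
    · rcases mem_insert.1 h4 with h6 | h6
      · rw [Sym2.eq_iff] at h6
        rcases h6 with ⟨h7, -⟩ | ⟨-, h7⟩
        · exact hab h7.symm
        · exact hac h7.symm
      · rcases mem_insert.1 h5 with h7 | h7
        · exact hbc (Sym2.congr_right.1 h7).symm
        · exact h c (Ne.symm hac) (Ne.symm hbc) h7 h6
    · rcases mem_insert.1 h4 with h6 | h6
      · exact hac (Sym2.congr_right.1 h6).symm
      · rcases mem_insert.1 h5 with h7 | h7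
        · rw [Sym2.eq_iff] at h7
          rcases h7 with ⟨h8, -⟩ | ⟨-, h8⟩
          · exact hab h8
          · exact hbc h8.symm
        · exact h c (Ne.symm hbc) (Ne.symm hac) h6 h7
  by_cases e1 : s(x, y) = s(w, v)
  · exact key x y z hxy hyz hxz e1 h2 h3
  by_cases e2 : s(y, z) = s(w, v)
  · exact key y z x hyz (Ne.symm hxz) (Ne.symm hxy) e2 (sw h3) (sw h1)
  by_cases e3 : s(x, z) = s(w, v)
  · exact key x z y hxz (Ne.symm hyz) hxy e3 (sw h2) h1
  exact hM x y z hxy hyz hxz ((mem_insert.1 h1).resolve_left e1) ((mem_insert.1 h2).resolve_left e2)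
    ((mem_insert.1 h3).resolve_left e3)

/-- EXCHANGE, upward step. -/
theorem tf_up (n : ℕ) : ∀ M N : Finset (Sym2 V), (∀ e ∈ M ∪ N, ¬ e.IsDiag) → TF M → TF N →
    (∀ v, dg M v ≤ 2) → (∀ v, dg N v ≤ 2) → (symmDiff M N).card ≤ n → ∀ w, dg M w < dg N w →
    ∃ M' ⊆ M ∪ N, TF M' ∧ (∀ v, dg M' v ≤ 2) ∧ ∃ (v : V) (τ : ℤ), (τ = 1 ∨ τ = -1) ∧
      0 < τ * (dg N v - (dg M v + st w 1 v)) ∧ ∀ u, dg M' u = dg M u + st w 1 u + st v τ u := by
  induction n with
  | zero =>
    intro M N _ _ _ _ _ hn w hw
    have h1 : symmDiff M N = ∅ := card_eq_zero.1 (Nat.le_zero.1 hn)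
    have h2 : M = N := by
      rwa [← bot_eq_empty, symmDiff_eq_bot] at h1
    rw [h2] at hw
    exact absurd hw (lt_irrefl _)
  | succ n ih =>
    intro M N hl hM hN dM dN hn w hw
    have hpair : ∀ a b : V, a ≠ b → ∀ u, (if u ∈ s(a, b) then (1 : ℤ) else 0) = st a 1 u + st b 1 u := by
      intro a b hab u
      unfold st
      by_cases h1 : u = a
      · simp [h1, hab]
      · by_cases h2 : u = b
        · simp [h2, Ne.symm hab]
        · simp [h1, h2]
    -- first finish
    have fin1 : ∀ v, s(w, v) ∈ N → s(w, v) ∉ M → dg M v < dg N v → TF (insert s(w, v) M) →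
        ∃ M' ⊆ M ∪ N, TF M' ∧ (∀ v, dg M' v ≤ 2) ∧ ∃ (v : V) (τ : ℤ), (τ = 1 ∨ τ = -1) ∧
          0 < τ * (dg N v - (dg M v + st w 1 v)) ∧
          ∀ u, dg M' u = dg M u + st w 1 u + st v τ u := by
      intro v he2 he1 hv htf
      have hwv : w ≠ v := by
        intro h
        exact hl _ (mem_union_right _ he2) (by simp [h])
      have hd : ∀ u, dg (insert s(w, v) M) u = dg M u + st w 1 u + st v 1 u := by
        intro u
        rw [dg_insert he1, hpair w v hwv]
        ring
      refine ⟨insert s(w, v) M, ?_, htf, ?_, v, 1, Or.inl rfl, ?_, hd⟩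
      · intro e he
        rcases mem_insert.1 he with rfl | he
        · exact mem_union_right _ he2
        · exact mem_union_left _ he
      · intro u
        rw [hd]
        have h1 := dM u
        by_cases h2 : u = w
        · subst h2
          rw [st_self, st_ne hwv]
          have := dN u
          omega
        · by_cases h3 : u = v
          · subst h3
            rw [st_self, st_ne h2]
            have := dN u
            omega
          · rw [st_ne h2, st_ne h3]
            omega
      · rw [st_ne (Ne.symm hwv)]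
        omega
    -- second finish
    have fin2 : ∀ v x, s(w, v) ∈ N → s(w, v) ∉ M → s(v, x) ∈ M → s(v, x) ∉ N →
        TF ((insert s(w, v) M).erase s(v, x)) →
        ∃ M' ⊆ M ∪ N, TF M' ∧ (∀ v, dg M' v ≤ 2) ∧ ∃ (v : V) (τ : ℤ), (τ = 1 ∨ τ = -1) ∧
          0 < τ * (dg N v - (dg M v + st w 1 v)) ∧
          ∀ u, dg M' u = dg M u + st w 1 u + st v τ u := by
      intro v x he2 he1 hf1 hf2 htf
      have hwv : w ≠ v := by
        intro h
        exact hl _ (mem_union_right _ he2) (by simp [h])
      have hvx : v ≠ x := by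
        intro h
        exact hl _ (mem_union_left _ hf1) (by simp [h])
      have hxw : x ≠ w := by
        intro h
        apply hf2
        rw [h, Sym2.eq_swap]
        exact he2
      obtain ⟨F, hF⟩ : ∃ F, F = (insert s(w, v) M).erase s(v, x) := ⟨_, rfl⟩
      rw [← hF] at htf
      have hd : ∀ u, dg F u = dg M u + st w 1 u - st x 1 u := by
        intro u
        rw [hF, dg_erase (mem_insert_of_mem hf1), dg_insert he1, hpair w v hwv, hpair v x hvx]
        ring
      have hsub : F ⊆ M ∪ N := by
        intro e he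
        rw [hF] at he
        rcases mem_insert.1 (mem_of_mem_erase he) with rfl | he
        · exact mem_union_right _ he2
        · exact mem_union_left _ he
      have hdF : ∀ u, dg F u ≤ 2 := by
        intro u
        rw [hd]
        have h1 := dM u
        by_cases h2 : u = w
        · subst h2
          rw [st_self, st_ne (Ne.symm hxw)]
          have := dN u
          omega
        · by_cases h3 : u = x
          · subst h3
            rw [st_self, st_ne h2]
            omega
          · rw [st_ne h2, st_ne h3]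
            omega
      by_cases hx : dg N x < dg M x
      · refine ⟨F, hsub, htf, hdF, x, -1, Or.inr rfl, ?_, ?_⟩
        · rw [st_ne hxw]
          omega
        · intro u
          rw [hd]
          unfold st
          split_ifs <;> ring
      · have hlt : dg F x < dg N x := by
          rw [hd, st_ne hxw, st_self]
          omega
        have hcard : (symmDiff F N).card ≤ n := by
          have h1 : symmDiff F N ⊂ symmDiff M N := by
            rw [ssubset_iff_of_subset]
            · refine ⟨s(w, v), ?_, ?_⟩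
              · rw [mem_symmDiff]
                exact Or.inr ⟨he2, he1⟩
              · rw [mem_symmDiff, hF]
                rintro (⟨-, h⟩ | ⟨-, h⟩)
                · exact h he2
                · apply h
                  rw [mem_erase]
                  exact ⟨fun h1 => hf2 (h1 ▸ he2), mem_insert_self _ _⟩
            · intro e he
              rw [mem_symmDiff, hF] at he
              rw [mem_symmDiff]
              rcases he with ⟨h1, h2⟩ | ⟨h1, h2⟩
              · rcases mem_insert.1 (mem_of_mem_erase h1) with rfl | h3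
                · exact absurd he2 h2
                · exact Or.inl ⟨h3, h2⟩
              · refine Or.inr ⟨h1, fun h3 => h2 ?_⟩
                rw [mem_erase]
                exact ⟨fun h4 => hf2 (h4 ▸ h1), mem_insert_of_mem h3⟩
          have h2 := card_lt_card h1
          omega
        obtain ⟨F3, hF3, htf3, hd3', y, τ, hτ, hy, hd3⟩ := ih F N (fun e he => hl e (by
          rcases mem_union.1 he with h | h
          · exact hsub h
          · exact mem_union_right _ h)) htf hN hdF dN hcard x hlt
        have hk : ∀ u, dg F u + st x 1 u = dg M u + st w 1 u := by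
          intro u
          rw [hd]
          ring
        refine ⟨F3, hF3.trans (union_subset hsub subset_union_right), htf3, hd3', y, τ, hτ, ?_, ?_⟩
        · rw [← hk]
          exact hy
        · intro u
          rw [hd3, hk]
    -- an edge which closes no triangle
    have fin3 : ∀ v, s(w, v) ∈ N → s(w, v) ∉ M → TF (insert s(w, v) M) →
        ∃ M' ⊆ M ∪ N, TF M' ∧ (∀ v, dg M' v ≤ 2) ∧ ∃ (v : V) (τ : ℤ), (τ = 1 ∨ τ = -1) ∧
          0 < τ * (dg N v - (dg M v + st w 1 v)) ∧
          ∀ u, dg M' u = dg M u + st w 1 u + st v τ u := by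
      intro v he2 he1 htf
      by_cases hv : dg M v < dg N v
      · exact fin1 v he2 he1 hv htf
      · have hv' : dg N v < dg (insert s(w, v) M) v := by
          rw [dg_insert he1]
          simp
          omega
        obtain ⟨x, hx1, hx2⟩ := exists_edge hv'
        have hx3 : s(v, x) ∈ M := by
          rcases mem_insert.1 hx1 with h | h
          · exact absurd (h ▸ he2) hx2
          · exact h
        exact fin2 v x he2 he1 hx3 hx2 (htf.mono (erase_subset _ _))
    obtain ⟨v, he2, he1⟩ := exists_edge hw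
    have hwv : w ≠ v := by
      intro h
      exact hl _ (mem_union_right _ he2) (by simp [h])
    by_cases hz : ∃ z, z ≠ w ∧ z ≠ v ∧ s(w, z) ∈ M ∧ s(v, z) ∈ M
    · obtain ⟨z, hzw, hzv, hwz, hvz⟩ := hz
      have h1 := dg_pos hwz
      have h2 := dN w
      have hw1 : dg M w ≤ 1 := by omega
      obtain ⟨a, hav, haN⟩ := exists_other (v := v) (M := N) (w := w) (by omega)
      have haw : w ≠ a := by
        intro h
        exact hl _ (mem_union_right _ haN) (by simp [h])
      by_cases haz : a = z
      · subst haz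
        have hvN : s(v, a) ∉ N := by
          intro h3
          exact hN w v a hwv (Ne.symm hav) haw he2 h3 haN
        refine fin2 v a he2 he1 hvz hvN ?_
        intro x y t hxy hyt hxt h3 h4 h5
        -- a triangle in `insert s(w, v) M` minus `s(v, a)`
        have h6 : TF ((insert s(w, v) M).erase s(v, a)) := by
          have h7 : TF (M.erase s(v, a)) := hM.mono (erase_subset _ _)
          have h8 : (insert s(w, v) M).erase s(v, a) = insert s(w, v) (M.erase s(v, a)) := by
            rw [erase_insert_of_ne]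
            intro h9
            rw [Sym2.eq_iff] at h9
            rcases h9 with ⟨h10, -⟩ | ⟨h10, -⟩
            · exact hwv h10
            · exact haw h10
          rw [h8]
          refine tf_insert h7 ?_ hwv
          intro c hcw hcv h9 h10
          have h11 : c = a := uniq1 hw1 (mem_of_mem_erase h9) hwz
          rw [h11] at h10
          exact notMem_erase _ _ h10
        exact h6 x y t hxy hyt hxt h3 h4 h5
      · have haM : s(w, a) ∉ M := fun h3 => haz (uniq1 hw1 h3 hwz)
        refine fin3 a haN haM (tf_insert hM ?_ haw)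
        intro c hcw hca h3 h4
        have h5 : c = z := uniq1 hw1 h3 hwz
        subst h5
        have h6 : s(c, w) ∈ M := by rw [Sym2.eq_swap]; exact hwz
        have h7 : s(c, v) ∈ M := by rw [Sym2.eq_swap]; exact hvz
        have h8 : s(c, a) ∈ M := by rw [Sym2.eq_swap]; exact h4
        rcases uniq2 (dM c) h6 h7 h8 with h | h | h
        · exact hwv h
        · exact haw h
        · exact hav h.symm
    · push Not at hz
      exact fin3 v he2 he1 (tf_insert hM (fun z h1 h2 h3 h4 => hz z h1 h2 h3 h4) hwv)

/-- EXCHANGE, both directions. -/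
theorem tf_exch {H M N : Finset (Sym2 V)} (h1 : M ⊆ H) (h2 : N ⊆ H) (hl : ∀ e ∈ H, ¬ e.IsDiag)
    (hM : TF M) (hN : TF N) (dM : ∀ v, dg M v ≤ 2) (dN : ∀ v, dg N v ≤ 2)
    {w : V} {σ : ℤ} (hσ : σ = 1 ∨ σ = -1) (hw : 0 < σ * (dg N w - dg M w)) :
    ∃ F ⊆ H, TF F ∧ (∀ v, dg F v ≤ 2) ∧ ∃ (v : V) (τ : ℤ), (τ = 1 ∨ τ = -1) ∧
      0 < τ * (dg N v - (dg M v + st w σ v)) ∧ ∀ u, dg F u = dg M u + st w σ u + st v τ u := by
  rcases hσ with rfl | rfl
  · obtain ⟨F, hF, ht, hd, v, τ, hτ, hv, hu⟩ := tf_up _ M N
      (fun e he => hl e (union_subset h1 h2 he)) hM hN dM dN le_rfl w (by omega)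
    exact ⟨F, hF.trans (union_subset h1 h2), ht, hd, v, τ, hτ, hv, hu⟩
  · have hw' : dg N w < dg M w := by omega
    obtain ⟨v, he1, he2⟩ := exists_edge hw'
    have hwv : w ≠ v := by
      intro h
      exact hl _ (h1 he1) (by simp [h])
    have hpair : ∀ u, (if u ∈ s(w, v) then (1 : ℤ) else 0) = st w 1 u + st v 1 u := by
      intro u
      unfold st
      by_cases h1 : u = w
      · simp [h1, hwv]
      · by_cases h2 : u = v
        · simp [h2, Ne.symm hwv]
        · simp [h1, h2]
    have hneg : ∀ (x u : V), st x (-1) u = - st x 1 u := by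
      intro x u
      unfold st
      split_ifs <;> ring
    have hd : ∀ u, dg (M.erase s(w, v)) u = dg M u - st w 1 u - st v 1 u := by
      intro u
      rw [dg_erase he1, hpair]
      ring
    have hdle : ∀ u, dg (M.erase s(w, v)) u ≤ 2 := by
      intro u
      rw [hd]
      have := dM u
      unfold st
      split_ifs <;> omega
    by_cases hv : dg N v < dg M v
    · refine ⟨M.erase s(w, v), (erase_subset _ _).trans h1, hM.mono (erase_subset _ _), hdle, v, -1,
        Or.inr rfl, ?_, ?_⟩
      · rw [st_ne (Ne.symm hwv)]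
        omega
      · intro u
        rw [hd, hneg, hneg]
        ring
    · obtain ⟨F, hF, ht, hdF, x, τ, hτ, hx, hu⟩ := tf_up _ (M.erase s(w, v)) N
        (fun e he => hl e (union_subset ((erase_subset _ _).trans h1) h2 he))
        (hM.mono (erase_subset _ _)) hN hdle dN le_rfl v (by
          rw [hd, st_self, st_ne (Ne.symm hwv)]
          omega)
      refine ⟨F, hF.trans (union_subset ((erase_subset _ _).trans h1) h2), ht, hdF, x, τ, hτ, ?_, ?_⟩
      · rw [hd] at hx
        rw [hneg]
        have : dg M x - st w 1 x - st v 1 x + st v 1 x = dg M x + -st w 1 x := by ring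
        rw [this] at hx
        exact hx
      · intro u
        rw [hu, hd, hneg]
        ring

end H66K
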