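import Pool.Agent.Lib.H66K.A
import Pool.Agent.Lib.H85TF.P2

/-!
# H66K, file B: the exchange lemma for families of disjoint cycles of length at least four
-/

set_option autoImplicit false
set_option linter.unusedSectionVars false

namespace H66K

open Finset H66J H98M

variable {V : Type*} [DecidableEq V]

/-- `A` is covered by pairwise disjoint cycles of `E`, all of length at least four. -/
def Cov4 (E : Finset (Sym2 V)) (A : Finset V) : Prop :=
  ∃ F ⊆ E, TF F ∧ (∀ v, H85TF.dg F v = 0 ∨ H85TF.dg F v = 2) ∧ ∀ v ∈ A, H85TF.dg F v = 2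

theorem dg_cast (F : Finset (Sym2 V)) (v : V) : H66J.dg F v = (H85TF.dg F v : ℤ) := rfl

/-- Deletion and contraction of several coordinates. -/
theorem jx_many {J : (V → ℤ) → Prop} {W A : Finset V} (S : Finset V) :
    Disjoint S W → JX J (W ∪ S) →
    JX (fun z => J z ∧ ∀ v ∈ S, (z v = 0 ∨ z v = 2) ∧ (v ∈ A → z v = 2)) W := by
  revert J
  induction S using Finset.induction_on with
  | empty =>
    intro J _ h
    have h1 : (fun z : V → ℤ => J z ∧ ∀ v ∈ (∅ : Finset V), (z v = 0 ∨ z v = 2) ∧ (v ∈ A → z v = 2))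
        = J := by
      funext z
      simp
    rw [h1]
    simpa using h
  | insert a S ha ih =>
    intro J hd h
    rw [disjoint_insert_left] at hd
    have h2 : (W ∪ insert a S).erase a = W ∪ S := by
      ext v
      simp only [mem_erase, mem_union, mem_insert]
      constructor
      · rintro ⟨h3, h4 | h4 | h4⟩
        · exact Or.inl h4
        · exact absurd h4 h3
        · exact Or.inr h4
      · rintro (h3 | h3)
        · exact ⟨fun h4 => hd.1 (h4 ▸ h3), Or.inl h3⟩
        · exact ⟨fun h4 => ha (h4 ▸ h3), Or.inr (Or.inr h3)⟩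
    have haW : a ∈ W ∪ insert a S := mem_union_right _ (mem_insert_self _ _)
    by_cases haA : a ∈ A
    · have h3 := jx_con h haW
      rw [h2] at h3
      have h4 := ih hd.2 h3
      have h5 : (fun z : V → ℤ => J z ∧ ∀ v ∈ insert a S, (z v = 0 ∨ z v = 2) ∧ (v ∈ A → z v = 2))
          = fun z => (J z ∧ z a = 2) ∧ ∀ v ∈ S, (z v = 0 ∨ z v = 2) ∧ (v ∈ A → z v = 2) := by
        funext z
        apply propext
        constructor
        · rintro ⟨h6, h7⟩
          exact ⟨⟨h6, (h7 a (mem_insert_self _ _)).2 haA⟩, fun v hv => h7 v (mem_insert_of_mem hv)⟩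
        · rintro ⟨⟨h6, h7⟩, h8⟩
          refine ⟨h6, fun v hv => ?_⟩
          rcases mem_insert.1 hv with rfl | hv
          · exact ⟨Or.inr h7, fun _ => h7⟩
          · exact h8 v hv
      rw [h5]
      exact h4
    · have h3 := jx_del h haW
      rw [h2] at h3
      have h4 := ih hd.2 h3
      have h5 : (fun z : V → ℤ => J z ∧ ∀ v ∈ insert a S, (z v = 0 ∨ z v = 2) ∧ (v ∈ A → z v = 2))
          = fun z => (J z ∧ (z a = 0 ∨ z a = 2)) ∧
            ∀ v ∈ S, (z v = 0 ∨ z v = 2) ∧ (v ∈ A → z v = 2) := by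
        funext z
        apply propext
        constructor
        · rintro ⟨h6, h7⟩
          exact ⟨⟨h6, (h7 a (mem_insert_self _ _)).1⟩, fun v hv => h7 v (mem_insert_of_mem hv)⟩
        · rintro ⟨⟨h6, h7⟩, h8⟩
          refine ⟨h6, fun v hv => ?_⟩
          rcases mem_insert.1 hv with rfl | hv
          · exact ⟨h7, fun h9 => absurd h9 haA⟩
          · exact h8 v hv
      rw [h5]
      exact h4

/-- The exchange between two families of cycles. -/
theorem two [Fintype V] {H F1 F2 : Finset (Sym2 V)} (hl : ∀ e ∈ H, ¬ e.IsDiag) (h1 : F1 ⊆ H)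
    (h2 : F2 ⊆ H) (t1 : TF F1) (t2 : TF F2) {A : Finset V} {b d : V} (hbd : b ≠ d)
    (e1 : ∀ v, H85TF.dg F1 v = 0 ∨ H85TF.dg F1 v = 2)
    (e2 : ∀ v, H85TF.dg F2 v = 0 ∨ H85TF.dg F2 v = 2)
    (a1 : ∀ v ∈ A, H85TF.dg F1 v = 2) (a2 : ∀ v ∈ A, H85TF.dg F2 v = 2)
    (b1 : H85TF.dg F1 b = 2) (b2 : H85TF.dg F2 b = 0)
    (d1 : H85TF.dg F1 d = 0) (d2 : H85TF.dg F2 d = 2) :
    ∃ F ⊆ H, TF F ∧ (∀ v, v ≠ b → v ≠ d → H85TF.dg F v = 0 ∨ H85TF.dg F v = 2) ∧
      (∀ v ∈ A, H85TF.dg F v = 2) ∧
      ((H85TF.dg F b = 2 ∧ H85TF.dg F d = 2) ∨ (H85TF.dg F b = 1 ∧ H85TF.dg F d = 1)) := by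
  have hbA : b ∉ A := fun h => by
    have := a2 b h
    omega
  have hdA : d ∉ A := fun h => by
    have := a1 d h
    omega
  have hJ : JX (fun z : V → ℤ => ∃ F ⊆ H, TF F ∧ (∀ v, H66J.dg F v ≤ 2) ∧ z = H66J.dg F) univ := by
    rintro x y ⟨M, hM, tM, dM, rfl⟩ ⟨N, hN, tN, dN, rfl⟩ w _ σ hσ hw
    obtain ⟨F, hF, tF, dF, v, τ, hτ, hv, hu⟩ := tf_exch hM hN hl tM tN dM dN hσ hw
    exact ⟨v, mem_univ _, τ, hτ, hv, _, ⟨F, hF, tF, dF, rfl⟩, fun u _ => hu u⟩
  have hdisj : Disjoint (univ \ {b, d} : Finset V) {b, d} := sdiff_disjoint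
  have huniv : ({b, d} : Finset V) ∪ (univ \ {b, d}) = univ := by
    rw [union_sdiff_of_subset (subset_univ _)]
  have hJ2 := jx_many (A := A) (univ \ {b, d}) hdisj (huniv.symm ▸ hJ)
  have hmem : ∀ (F : Finset (Sym2 V)), F ⊆ H → TF F → (∀ v, H85TF.dg F v = 0 ∨ H85TF.dg F v = 2) →
      (∀ v ∈ A, H85TF.dg F v = 2) →
      ((∃ F' ⊆ H, TF F' ∧ (∀ v, H66J.dg F' v ≤ 2) ∧ H66J.dg F = H66J.dg F') ∧
        ∀ v ∈ univ \ ({b, d} : Finset V), (H66J.dg F v = 0 ∨ H66J.dg F v = 2) ∧
          (v ∈ A → H66J.dg F v = 2)) := by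
    intro F hF tF hF1 hF2
    refine ⟨⟨F, hF, tF, fun v => ?_, rfl⟩, fun v _ => ⟨?_, fun hv => ?_⟩⟩
    · rw [dg_cast]
      rcases hF1 v with h | h <;> rw [h] <;> norm_num
    · rw [dg_cast]
      rcases hF1 v with h | h <;> rw [h] <;> norm_num
    · rw [dg_cast, hF2 v hv]
      norm_num
  obtain ⟨v, hv, τ, hτ, hv1, z, ⟨⟨F, hF, tF, dF, rfl⟩, hz2⟩, hu⟩ := hJ2 (H66J.dg F1) (H66J.dg F2)
    (hmem F1 h1 t1 e1 a1) (hmem F2 h2 t2 e2 a2) d (by simp) 1 (Or.inl rfl) (by
      rw [dg_cast, dg_cast, d1, d2]; norm_num)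
  have hub := hu b (by simp)
  have hud := hu d (by simp)
  simp only [dg_cast] at hub hud hv1 hz2
  rw [st_ne hbd, b1] at hub
  rw [st_self, d1] at hud
  have hFd : ∀ v, v ≠ b → v ≠ d → H85TF.dg F v = 0 ∨ H85TF.dg F v = 2 := by
    intro v h3 h4
    have h5 := (hz2 v (by simp [h3, h4])).1
    rcases h5 with h5 | h5
    · left; exact_mod_cast h5
    · right; exact_mod_cast h5
  have hFA : ∀ v ∈ A, H85TF.dg F v = 2 := by
    intro v hv
    have h3 : v ≠ b := fun h => hbA (h ▸ hv)
    have h4 : v ≠ d := fun h => hdA (h ▸ hv)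
    have h5 := (hz2 v (by simp [h3, h4])).2 hv
    exact_mod_cast h5
  refine ⟨F, hF, tF, hFd, hFA, ?_⟩
  rcases mem_insert.1 hv with rfl | hv
  · right
    rw [st_ne hbd, b1, b2] at hv1
    rw [st_self] at hub
    rw [st_ne (Ne.symm hbd)] at hud
    have hτ1 : τ = -1 := by
      rcases hτ with rfl | rfl
      · norm_num at hv1
      · rfl
    rw [hτ1] at hub
    constructor
    · have : (H85TF.dg F v : ℤ) = 1 := by rw [hub]; norm_num
      exact_mod_cast this
    · have : (H85TF.dg F d : ℤ) = 1 := by rw [hud]; norm_num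
      exact_mod_cast this
  · rw [mem_singleton] at hv
    subst hv
    left
    rw [st_self, d1, d2] at hv1
    rw [st_ne hbd] at hub
    rw [st_self] at hud
    have hτ1 : τ = 1 := by
      rcases hτ with rfl | rfl
      · rfl
      · norm_num at hv1
    rw [hτ1] at hud
    constructor
    · have : (H85TF.dg F b : ℤ) = 2 := by rw [hub]; norm_num
      exact_mod_cast this
    · have : (H85TF.dg F v : ℤ) = 2 := by rw [hud]; norm_num
      exact_mod_cast this

/-- Adding a path whose inner vertices have degree `0`, without closing a triangle. -/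
theorem addPath4 {E : Finset (Sym2 V)} {d : V} :
    ∀ {x : V} (p : (SimpleGraph.fromEdgeSet (E : Set (Sym2 V))).Walk x d), p.IsPath →
      ∀ F : Finset (Sym2 V), F ⊆ E → TF F → x ≠ d → s(x, d) ∉ F → H85TF.dg F x = 1 →
      H85TF.dg F d = 1 → (∀ v, v ≠ x → v ≠ d → H85TF.dg F v = 0 ∨ H85TF.dg F v = 2) →
      (∀ r ∈ p.support, r ≠ x → r ≠ d → H85TF.dg F r = 0) →
      (s(x, d) ∈ E → ∀ z, s(x, z) ∈ F → s(d, z) ∈ F → False) →
      ∃ F' ⊆ E, TF F' ∧ (∀ v, H85TF.dg F' v = 0 ∨ H85TF.dg F' v = 2) ∧ H85TF.dg F' x = 2 ∧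
        H85TF.dg F' d = 2 ∧ ∀ v, H85TF.dg F v = 2 → H85TF.dg F' v = 2 := by
  intro x p
  induction p with
  | nil => intro _ F _ _ h; exact absurd rfl h
  | @cons x y d h q ih =>
    intro hp F hF tF hxd hne hx hd hdeg hin hI
    rw [SimpleGraph.fromEdgeSet_adj] at h
    obtain ⟨hxy, hxy'⟩ := h
    rw [SimpleGraph.Walk.cons_isPath_iff] at hp
    by_cases hyd : y = d
    · subst hyd
      have key := H85TF.dg_insert hne
      refine ⟨insert s(x, y) F, insert_subset (by exact_mod_cast hxy) hF, ?_, ?_, ?_, ?_, ?_⟩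
      · exact tf_insert tF (fun z _ _ h3 h4 => hI (by exact_mod_cast hxy) z h3 h4) hxd
      · intro v
        rw [key v]
        by_cases h1 : v = x
        · subst h1; simp [hx]
        · by_cases h2 : v = y
          · subst h2; simp [hd]
          · simpa [h1, h2] using hdeg v h1 h2
      · rw [key x]; simp [hx]
      · rw [key y]; simp [hd]
      · intro v hv
        rw [key v]
        have h1 : v ≠ x := fun e => by subst e; omega
        have h2 : v ≠ y := fun e => by subst e; omega
        simpa [h1, h2] using hv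
    · have hy0 : H85TF.dg F y = 0 := hin y (by simp) (Ne.symm hxy') hyd
      have hnF : s(x, y) ∉ F := fun h' => by
        have := H85TF.dg_pos' h'
        omega
      have key := H85TF.dg_insert hnF
      have hyF : ∀ z, s(y, z) ∉ F := fun z h' => by
        have := H85TF.dg_pos h'
        omega
      obtain ⟨F', hF', h0, h1, h2, h3, h4⟩ := ih hp.1 (insert s(x, y) F)
        (insert_subset (by exact_mod_cast hxy) hF)
        (tf_insert tF (fun z _ _ _ h4 => hyF z h4) hxy') hyd
        (by
          intro h'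
          rcases mem_insert.1 h' with h' | h'
          · rw [Sym2.eq_iff] at h'
            rcases h' with h' | h'
            · exact hxy' h'.1.symm
            · exact hxd h'.2.symm
          · exact hyF _ h')
        (by rw [key y]; simp [hy0])
        (by
          rw [key d]
          have h1 : d ≠ x := Ne.symm hxd
          have h2 : d ≠ y := Ne.symm hyd
          simpa [h1, h2] using hd)
        (by
          intro v hv1 hv2
          rw [key v]
          by_cases h1 : v = x
          · subst h1; simp [hx]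
          · simpa [h1, hv1] using hdeg v h1 hv2)
        (by
          intro r hr hr1 hr2
          have h1 : r ≠ x := fun e => hp.2 (e ▸ hr)
          rw [key r]
          have := hin r (by simp [hr]) h1 hr2
          simpa [h1, hr1] using this)
        (by
          intro _ z h5 h6
          have hzx : z = x := by
            rcases mem_insert.1 h5 with h7 | h7
            · rw [Sym2.eq_iff] at h7
              rcases h7 with h7 | h7
              · exact absurd h7.1.symm hxy'
              · exact h7.2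
            · exact absurd h7 (hyF z)
          subst hzx
          rcases mem_insert.1 h6 with h7 | h7
          · rw [Sym2.eq_iff] at h7
            rcases h7 with h7 | h7
            · exact hxd h7.1.symm
            · exact hyd h7.1.symm
          · exact hne (sw h7))
      refine ⟨F', hF', h0, h1, h4 x (by rw [key x]; simp [hx]), h3, fun v hv => h4 v ?_⟩
      rw [key v]
      have h5 : v ≠ x := fun e => by subst e; omega
      have h6 : v ≠ y := fun e => by subst e; omega
      simpa [h5, h6] using hv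

/-- THE EXCHANGE LEMMA. -/
theorem exch4 [Fintype V] {E : Finset (Sym2 V)} (hE : ∀ e ∈ E, ¬ e.IsDiag) {A : Finset V} {b d : V}
    (hb : Cov4 E (insert b A)) (hd : Cov4 E (insert d A))
    (p : (SimpleGraph.fromEdgeSet (E : Set (Sym2 V))).Walk b d) (hp : p.IsPath)
    (hin : ∀ r ∈ p.support, r ≠ b → r ≠ d → ¬ Cov4 E (insert r A)) :
    Cov4 E (insert b (insert d A)) := by
  obtain ⟨F₁, h1, t1, hdeg1, hA1⟩ := hb
  obtain ⟨F₂, h2, t2, hdeg2, hA2⟩ := hd
  have hb1 : H85TF.dg F₁ b = 2 := hA1 b (mem_insert_self _ _)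
  have hd2 : H85TF.dg F₂ d = 2 := hA2 d (mem_insert_self _ _)
  rcases hdeg1 d with hd1 | hd1
  swap
  · refine ⟨F₁, h1, t1, hdeg1, fun v hv => ?_⟩
    rcases mem_insert.1 hv with rfl | hv
    · exact hb1
    · rcases mem_insert.1 hv with rfl | hv
      · exact hd1
      · exact hA1 v (mem_insert_of_mem hv)
  rcases hdeg2 b with hb2 | hb2
  swap
  · refine ⟨F₂, h2, t2, hdeg2, fun v hv => ?_⟩
    rcases mem_insert.1 hv with rfl | hv
    · exact hb2
    · exact hA2 v hv
  have hbd : b ≠ d := by rintro rfl; omega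
  have hno1 : ∀ z, s(d, z) ∉ F₁ := fun z h => by
    have := H85TF.dg_pos h
    omega
  have hno2 : ∀ z, s(b, z) ∉ F₂ := fun z h => by
    have := H85TF.dg_pos h
    omega
  obtain ⟨F, hF, tF, hdF, hFA, hc⟩ := two (H := F₁ ∪ F₂) (A := A)
    (fun e he => hE e (union_subset h1 h2 he)) subset_union_left subset_union_right t1 t2 hbd
    hdeg1 hdeg2 (fun v hv => hA1 v (mem_insert_of_mem hv)) (fun v hv => hA2 v (mem_insert_of_mem hv))
    hb1 hb2 hd1 hd2
  have hFE : F ⊆ E := hF.trans (union_subset h1 h2)
  have hbdF : s(b, d) ∉ F := by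
    intro h
    rcases mem_union.1 (hF h) with h | h
    · exact hno1 b (sw h)
    · exact hno2 d h
  rcases hc with ⟨hcb, hcd⟩ | ⟨hcb, hcd⟩
  · refine ⟨F, hFE, tF, fun v => ?_, fun v hv => ?_⟩
    · by_cases hvb : v = b
      · right; rw [hvb]; exact hcb
      · by_cases hvd : v = d
        · right; rw [hvd]; exact hcd
        · exact hdF v hvb hvd
    · rcases mem_insert.1 hv with rfl | hv
      · exact hcb
      · rcases mem_insert.1 hv with rfl | hv
        · exact hcd
        · exact hFA v hv
  · by_cases hz : s(b, d) ∈ E ∧ ∃ z, s(b, z) ∈ F ∧ s(d, z) ∈ F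
    · obtain ⟨hbdE, z, hbz, hdz⟩ := hz
      have hbz1 : s(b, z) ∈ F₁ := (mem_union.1 (hF hbz)).resolve_right (hno2 z)
      have hdz2 : s(d, z) ∈ F₂ := (mem_union.1 (hF hdz)).resolve_left (hno1 z)
      have hbz' : b ≠ z := by
        intro h
        exact hE _ (h1 hbz1) (by simp [h])
      have hdz' : d ≠ z := by
        intro h
        exact hE _ (h2 hdz2) (by simp [h])
      have n1 : s(d, z) ∉ F₁.erase s(b, z) := fun h => hno1 z (mem_of_mem_erase h)
      have n2 : s(b, d) ∉ insert s(d, z) (F₁.erase s(b, z)) := by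
        intro h
        rcases mem_insert.1 h with h | h
        · rw [Sym2.eq_iff] at h
          rcases h with h | h
          · exact hbd h.1
          · exact hbz' h.1
        · exact hno1 b (sw (mem_of_mem_erase h))
      have key : ∀ v, H85TF.dg (insert s(b, d) (insert s(d, z) (F₁.erase s(b, z)))) v +
          (if v = b ∨ v = z then 1 else 0) =
          H85TF.dg F₁ v + (if v = d ∨ v = z then 1 else 0) + (if v = b ∨ v = d then 1 else 0) := by
        intro v
        rw [H85TF.dg_insert n2, H85TF.dg_insert n1, H85TF.dg_erase hbz1 v]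
        ring
      have hval : ∀ v, (v = d → H85TF.dg (insert s(b, d) (insert s(d, z) (F₁.erase s(b, z)))) v = 2) ∧
          (v ≠ d → H85TF.dg (insert s(b, d) (insert s(d, z) (F₁.erase s(b, z)))) v =
            H85TF.dg F₁ v) := by
        intro v
        have hk := key v
        constructor
        · rintro rfl
          rw [if_neg (by push Not; exact ⟨Ne.symm hbd, hdz'⟩), if_pos (Or.inl rfl),
            if_pos (Or.inr rfl), hd1] at hk
          omega
        · intro hvd
          by_cases hvb : v = b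
          · subst hvb
            rw [if_pos (Or.inl rfl), if_neg (by push Not; exact ⟨hbd, hbz'⟩),
              if_pos (Or.inl rfl)] at hk
            omega
          · by_cases hvz : v = z
            · subst hvz
              rw [if_pos (Or.inr rfl), if_pos (Or.inr rfl),
                if_neg (by push Not; exact ⟨hvb, hvd⟩)] at hk
              omega
            · rw [if_neg (by push Not; exact ⟨hvb, hvz⟩), if_neg (by push Not; exact ⟨hvd, hvz⟩),
                if_neg (by push Not; exact ⟨hvb, hvd⟩)] at hk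
              omega
      refine ⟨insert s(b, d) (insert s(d, z) (F₁.erase s(b, z))), ?_, ?_, ?_, ?_⟩
      · exact insert_subset hbdE (insert_subset (h2 hdz2) ((erase_subset _ _).trans h1))
      · refine tf_insert (tf_insert (t1.mono (erase_subset _ _))
          (fun c _ _ h3 _ => hno1 c (mem_of_mem_erase h3)) hdz') ?_ hbd
        intro c _ _ h3 h4
        have hcz : c = z := by
          rcases mem_insert.1 h4 with h5 | h5
          · exact Sym2.congr_right.1 h5
          · exact absurd (mem_of_mem_erase h5) (hno1 c)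
        subst hcz
        rcases mem_insert.1 h3 with h5 | h5
        · rw [Sym2.eq_iff] at h5
          rcases h5 with h5 | h5
          · exact hbd h5.1
          · exact hbz' h5.1
        · exact notMem_erase _ _ h5
      · intro v
        by_cases hvd : v = d
        · right
          exact (hval v).1 hvd
        · rw [(hval v).2 hvd]
          exact hdeg1 v
      · intro v hv
        by_cases hvd : v = d
        · exact (hval v).1 hvd
        · rw [(hval v).2 hvd]
          rcases mem_insert.1 hv with rfl | hv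
          · exact hb1
          · rcases mem_insert.1 hv with rfl | hv
            · exact absurd rfl hvd
            · exact hA1 v (mem_insert_of_mem hv)
    · obtain ⟨F'', hF'', t'', h7, h8, h9, h10⟩ := addPath4 p hp F hFE tF hbd hbdF hcb hcd hdF
        (by
          intro r hr hr1 hr2
          have h3 : H85TF.dg F₁ r = 0 := by
            rcases hdeg1 r with h | h
            · exact h
            · exact absurd ⟨F₁, h1, t1, hdeg1, fun v hv => by
                rcases mem_insert.1 hv with rfl | hv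
                · exact h
                · exact hA1 v (mem_insert_of_mem hv)⟩ (hin r hr hr1 hr2)
          have h4 : H85TF.dg F₂ r = 0 := by
            rcases hdeg2 r with h | h
            · exact h
            · exact absurd ⟨F₂, h2, t2, hdeg2, fun v hv => by
                rcases mem_insert.1 hv with rfl | hv
                · exact h
                · exact hA2 v (mem_insert_of_mem hv)⟩ (hin r hr hr1 hr2)
          exact H85TF.dg_union_zero hF h3 h4)
        (fun h3 z h4 h5 => hz ⟨h3, z, h4, h5⟩)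
      refine ⟨F'', hF'', t'', h7, fun v hv => ?_⟩
      rcases mem_insert.1 hv with rfl | hv
      · exact h8
      · rcases mem_insert.1 hv with rfl | hv
        · exact h9
        · exact h10 v (hFA v hv)

theorem cov4_sub {E : Finset (Sym2 V)} {A B : Finset V} (h : A ⊆ B) (hB : Cov4 E B) : Cov4 E A := by
  obtain ⟨F, h1, t, h2, h3⟩ := hB
  exact ⟨F, h1, t, h2, fun v hv => h3 v (h hv)⟩

theorem cov4_edges {E E' : Finset (Sym2 V)} {A : Finset V} (h : E ⊆ E') (hA : Cov4 E A) :
    Cov4 E' A := by
  obtain ⟨F, h1, h2, h3⟩ := hA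
  exact ⟨F, h1.trans h, h2, h3⟩

theorem cov4_empty (E : Finset (Sym2 V)) : Cov4 E ∅ :=
  ⟨∅, empty_subset _, fun _ _ _ _ _ _ h => absurd h (notMem_empty _),
    fun v => Or.inl (by simp [H85TF.dg]), fun v hv => absurd hv (notMem_empty v)⟩

/-- THE EXCHANGE LEMMA, with a connected set in place of the path. -/
theorem exch4_set [Fintype V] {E : Finset (Sym2 V)} (hE : ∀ e ∈ E, ¬ e.IsDiag) {A U : Finset V}
    {b d : V} (hb : Cov4 E (insert b A)) (hd : Cov4 E (insert d A)) (hbU : b ∈ U) (hdU : d ∈ U)
    (hU : ¬ Disc U E) (hin : ∀ u ∈ U, u ≠ b → u ≠ d → ¬ Cov4 E (insert u A)) :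
    Cov4 E (insert b (insert d A)) := by
  obtain ⟨p, hp, hpU⟩ := H85TF.path_of_not_disc hU hbU hdU
  exact exch4 hE hb hd p hp fun r hr => hin r (hpU r hr)

end H66K
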