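import Pool.Agent.Lib.H66K.B

/-!
# H66K, file C: every vertex of a 2-connected graph with at least four vertices is on a cycle of
length at least four
-/

set_option autoImplicit false
set_option linter.unusedSectionVars false

namespace H66K

open Finset H66J H98M

variable {V : Type*} [DecidableEq V]

theorem tf_two {v u w : V} (huw : u ≠ w) (hvu : v ≠ u) (hvw : v ≠ w) :
    TF (insert s(v, u) (insert s(v, w) (∅ : Finset (Sym2 V)))) := by
  have h0 : TF (∅ : Finset (Sym2 V)) := fun _ _ _ _ _ _ h => absurd h (notMem_empty _)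
  have h1 : TF (insert s(v, w) (∅ : Finset (Sym2 V))) :=
    tf_insert h0 (fun z _ _ h _ => absurd h (notMem_empty _)) hvw
  refine tf_insert h1 (fun z _ _ h h' => ?_) hvu
  rcases mem_insert.1 h' with e | e
  · rw [Sym2.eq_iff] at e
    rcases e with e | e
    · exact hvu e.1.symm
    · exact huw e.1
  · exact notMem_empty _ e

/-- If `u`, `w` are neighbours of `v`, connected outside `v` without the edge `uw`. -/
theorem cov4_of_pair [Fintype V] {E : Finset (Sym2 V)} {v u w : V}
    (huv : v ≠ u) (hwv : v ≠ w) (huw : u ≠ w) (hu : s(v, u) ∈ E) (hw : s(v, w) ∈ E)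
    (hD : ¬ Disc (univ.erase v) (E.erase s(u, w))) : Cov4 E {v} := by
  classical
  obtain ⟨p, hp, hpU⟩ := H85TF.path_of_not_disc hD (b := u) (d := w)
    (mem_erase.2 ⟨Ne.symm huv, mem_univ _⟩) (mem_erase.2 ⟨Ne.symm hwv, mem_univ _⟩)
  have hn1 : s(v, w) ∉ (∅ : Finset (Sym2 V)) := notMem_empty _
  have hn2 : s(v, u) ∉ insert s(v, w) (∅ : Finset (Sym2 V)) := by
    intro h
    rcases mem_insert.1 h with h | h
    · rw [Sym2.eq_iff] at h
      rcases h with h | h
      · exact huw h.2
      · exact huv h.2.symm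
    · exact notMem_empty _ h
  have key : ∀ x, H85TF.dg (insert s(v, u) (insert s(v, w) (∅ : Finset (Sym2 V)))) x =
      (if x = v ∨ x = w then 1 else 0) + if x = v ∨ x = u then 1 else 0 := by
    intro x
    rw [H85TF.dg_insert hn2, H85TF.dg_insert hn1]
    simp [H85TF.dg]
  have hv2 : H85TF.dg (insert s(v, u) (insert s(v, w) (∅ : Finset (Sym2 V)))) v = 2 := by
    rw [key]; simp
  have hsub : insert s(v, u) (insert s(v, w) (∅ : Finset (Sym2 V))) ⊆ E.erase s(u, w) := by
    intro e he
    rcases mem_insert.1 he with rfl | he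
    · refine mem_erase.2 ⟨fun h => ?_, hu⟩
      rw [Sym2.eq_iff] at h
      rcases h with h | h
      · exact huv h.1
      · exact hwv h.1
    · rcases mem_insert.1 he with rfl | he
      · refine mem_erase.2 ⟨fun h => ?_, hw⟩
        rw [Sym2.eq_iff] at h
        rcases h with h | h
        · exact huv h.1
        · exact hwv h.1
      · exact absurd he (notMem_empty _)
  obtain ⟨F', h1, h0, h2, h4, h5, h6⟩ := addPath4 p hp (insert s(v, u) (insert s(v, w) ∅))
    hsub (tf_two huw huv hwv) huw
    (fun h => (mem_erase.1 (hsub h)).1 rfl)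
    (by rw [key]; simp [Ne.symm huv, huw])
    (by rw [key]; simp [Ne.symm hwv, Ne.symm huw])
    (by
      intro x hx1 hx2
      rw [key]
      by_cases hx : x = v
      · subst hx; simp
      · simp [hx, hx1, hx2])
    (by
      intro r hr hr1 hr2
      have hrv : r ≠ v := (mem_erase.1 (hpU r hr)).1
      rw [key]
      simp [hrv, hr1, hr2])
    (fun h => absurd rfl (mem_erase.1 h).1)
  refine ⟨F', h1.trans (erase_subset _ _), h0, h2, fun x hx => ?_⟩
  rw [mem_singleton.1 hx]
  exact h6 v hv2

theorem side [Fintype V] {E : Finset (Sym2 V)} {v u w : V} {C D : Finset V} (huC : u ∈ C)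
    (hwD : w ∈ D) (hCD : Disjoint C D) (hun : C ∪ D = univ.erase v)
    (hno : ∀ x ∈ C, ∀ y ∈ D, s(x, y) ∉ E.erase s(u, w)) (hN : ∀ x, s(v, x) ∈ E → x = u ∨ x = w)
    (hne : (C.erase u).Nonempty) : Disc (univ.erase u) E := by
  have hwC : w ∉ C := fun h => disjoint_left.1 hCD h hwD
  have huD : u ∉ D := disjoint_left.1 hCD huC
  have hvC : v ∉ C := fun h => by
    have := (mem_erase.1 (hun ▸ mem_union_left D h)).1
    exact this rfl
  have huv : u ≠ v := fun e => hvC (e ▸ huC)
  refine ⟨C.erase u, insert v D, hne, insert_nonempty _ _, ?_, ?_, ?_⟩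
  · rw [disjoint_left]
    intro x hx hx'
    have hxC := mem_of_mem_erase hx
    rcases mem_insert.1 hx' with rfl | h
    · exact hvC hxC
    · exact disjoint_left.1 hCD hxC h
  · ext x
    simp only [mem_union, mem_erase, mem_insert, mem_univ, and_true]
    constructor
    · rintro (h | rfl | h)
      · exact h.1
      · exact Ne.symm huv
      · rintro rfl; exact huD h
    · intro hxu
      by_cases hxv : x = v
      · exact Or.inr (Or.inl hxv)
      · have : x ∈ C ∪ D := by
          rw [hun]
          exact mem_erase.2 ⟨hxv, mem_univ _⟩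
        rcases mem_union.1 this with h | h
        · exact Or.inl ⟨hxu, h⟩
        · exact Or.inr (Or.inr h)
  · intro x hx y hy hE
    obtain ⟨hxu, hxC⟩ := mem_erase.1 hx
    rcases mem_insert.1 hy with rfl | hyD
    · rcases hN x (sw hE) with h | h
      · exact hxu h
      · exact hwC (h ▸ hxC)
    · refine hno x hxC y hyD (mem_erase.2 ⟨fun h => ?_, hE⟩)
      rw [Sym2.eq_iff] at h
      rcases h with h | h
      · exact hxu h.1
      · exact hwC (h.1 ▸ hxC)

/-- Every vertex of a 2-connected graph with at least four vertices is on a cycle of length at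
least four. -/
theorem cov4_vertex [Fintype V] {E : Finset (Sym2 V)} (hE : ∀ e ∈ E, ¬ e.IsDiag)
    (h4 : 4 ≤ Fintype.card V) (hc : ¬ Disc univ E) (hcut : ∀ z, ¬ Disc (univ.erase z) E) (v : V) :
    Cov4 E {v} := by
  classical
  by_contra hno
  obtain ⟨u, hu⟩ : ∃ u, s(v, u) ∈ E := by
    by_contra hcon
    push Not at hcon
    refine hc ⟨{v}, univ.erase v, singleton_nonempty v, ?_, ?_, ?_, ?_⟩
    · rw [← card_pos, card_erase_of_mem (mem_univ _), card_univ]
      omega
    · simp
    · ext x
      simp
    · intro x hx y _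
      rw [mem_singleton.1 hx]
      exact hcon y
  have huv : v ≠ u := fun e => hE _ hu (by simpa using e)
  obtain ⟨w, hwu, hw⟩ : ∃ w, w ≠ u ∧ s(v, w) ∈ E := by
    by_contra hcon
    push Not at hcon
    refine hcut u ⟨{v}, (univ.erase u).erase v, singleton_nonempty v, ?_, ?_, ?_, ?_⟩
    · rw [← card_pos, card_erase_of_mem (mem_erase.2 ⟨huv, mem_univ _⟩),
        card_erase_of_mem (mem_univ _), card_univ]
      omega
    · simp
    · ext x
      simp only [mem_union, mem_singleton, mem_erase, mem_univ, and_true]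
      constructor
      · rintro (rfl | h)
        · exact huv
        · exact h.2
      · intro h
        by_cases hx : x = v
        · exact Or.inl hx
        · exact Or.inr ⟨hx, h⟩
    · intro x hx y hy
      rw [mem_singleton.1 hx]
      rw [mem_erase, mem_erase] at hy
      exact hcon y hy.2.1
  have hwv : v ≠ w := fun e => hE _ hw (by simpa using e)
  have hD : Disc (univ.erase v) (E.erase s(u, w)) := by
    by_contra h
    exact hno (cov4_of_pair huv hwv (Ne.symm hwu) hu hw h)
  -- a nonadjacent pair of neighbours is impossible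
  have hadj : ∀ a b, s(v, a) ∈ E → s(v, b) ∈ E → a ≠ b → s(a, b) ∈ E := by
    intro a b ha hb hab
    by_contra h
    refine hno (cov4_of_pair (fun e => hE _ ha (by simpa using e))
      (fun e => hE _ hb (by simpa using e)) hab ha hb ?_)
    rw [erase_eq_of_notMem h]
    exact hcut v
  -- arrange the two sides
  obtain ⟨C, D, huC, hwD, hCD, hun, hnoe⟩ : ∃ C D : Finset V, u ∈ C ∧ w ∈ D ∧ Disjoint C D ∧
      C ∪ D = univ.erase v ∧ ∀ x ∈ C, ∀ y ∈ D, s(x, y) ∉ E.erase s(u, w) := by
    obtain ⟨C, D, hC, hD', hCD, hun, hnoe⟩ := hD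
    have hu' : u ∈ C ∪ D := by rw [hun]; exact mem_erase.2 ⟨Ne.symm huv, mem_univ _⟩
    have hw' : w ∈ C ∪ D := by rw [hun]; exact mem_erase.2 ⟨Ne.symm hwv, mem_univ _⟩
    rcases mem_union.1 hu' with h1 | h1
    · rcases mem_union.1 hw' with h2 | h2
      · refine absurd ⟨C, D, hC, hD', hCD, hun, fun x hx y hy h => ?_⟩ (hcut v)
        refine hnoe x hx y hy (mem_erase.2 ⟨fun e => ?_, h⟩)
        rw [Sym2.eq_iff] at e
        rcases e with e | e
        · exact disjoint_left.1 hCD h2 (e.2 ▸ hy)
        · exact disjoint_left.1 hCD h1 (e.2 ▸ hy)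
      · exact ⟨C, D, h1, h2, hCD, hun, hnoe⟩
    · rcases mem_union.1 hw' with h2 | h2
      · exact ⟨D, C, h1, h2, hCD.symm, by rw [union_comm]; exact hun,
          fun x hx y hy h => hnoe y hy x hx (sw h)⟩
      · refine absurd ⟨C, D, hC, hD', hCD, hun, fun x hx y hy h => ?_⟩ (hcut v)
        refine hnoe x hx y hy (mem_erase.2 ⟨fun e => ?_, h⟩)
        rw [Sym2.eq_iff] at e
        rcases e with e | e
        · exact disjoint_left.1 hCD (e.1 ▸ hx) h1
        · exact disjoint_left.1 hCD (e.1 ▸ hx) h2
  have hwC : w ∉ C := fun h => disjoint_left.1 hCD h hwD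
  have huD : u ∉ D := disjoint_left.1 hCD huC
  have hN : ∀ x, s(v, x) ∈ E → x = u ∨ x = w := by
    intro x hx
    by_contra hcon
    push Not at hcon
    have hxv : x ≠ v := fun e => hE _ hx (by simpa using e.symm)
    have hx' : x ∈ C ∪ D := by rw [hun]; exact mem_erase.2 ⟨hxv, mem_univ _⟩
    rcases mem_union.1 hx' with h | h
    · refine hnoe x h w hwD (mem_erase.2 ⟨fun e => ?_, hadj x w hx hw hcon.2⟩)
      rw [Sym2.eq_iff] at e
      rcases e with e | e
      · exact hcon.1 e.1
      · exact hcon.2 e.1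
    · refine hnoe u huC x h (mem_erase.2 ⟨fun e => ?_, hadj u x hu hx (Ne.symm hcon.1)⟩)
      rw [Sym2.eq_iff] at e
      rcases e with e | e
      · exact hcon.2 e.2
      · exact hcon.1 e.2
  have hcard : C.card + D.card + 1 = Fintype.card V := by
    have h1 := card_union_of_disjoint hCD
    rw [hun, card_erase_of_mem (mem_univ _), card_univ] at h1
    omega
  by_cases hC2 : (C.erase u).Nonempty
  · exact hcut u (side huC hwD hCD hun hnoe hN hC2)
  · refine hcut w (side (u := w) (w := u) hwD huC hCD.symm (by rw [union_comm]; exact hun)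
      (fun x hx y hy h => hnoe y hy x hx ?_) (fun x hx => (hN x hx).symm) ?_)
    · have h' := mem_erase.1 h
      refine mem_erase.2 ⟨fun e => h'.1 ?_, sw h'.2⟩
      have e2 : s(x, y) = s(y, x) := Sym2.eq_swap
      have e3 : s(w, u) = s(u, w) := Sym2.eq_swap
      rw [e2, e3]
      exact e
    · rw [← card_pos, card_erase_of_mem hwD]
      rw [not_nonempty_iff_eq_empty] at hC2
      have h1 : C.card = 1 := by
        have := card_erase_of_mem huC
        rw [hC2, card_empty] at this
        have h3 : 0 < C.card := card_pos.2 ⟨u, huC⟩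
        omega
      omega

end H66K
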